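import Pool.Agent.R319.F6

/-!
# `Γ₀(pⁿ)` has a Farey sequence with all denominators at most `pⁿ⁻¹`

For every odd prime `p` and every `n ≥ 3`, the group `Γ₀(pⁿ)` has a special polygon (in the sense
of Kulkarni) all of whose cusps in `[0,1]` have denominator at most `pⁿ⁻¹`.

Idea of the proof.  Farey triangles are encoded by the pair `(c,d)` of denominators of their base;
their classes modulo `Γ₀(N)`, `N = pⁿ`, correspond to the points `(c:d)` of `P¹(ℤ/N)` modulo a
rotation of order three, and each class to the lattice `L ⊂ ℤ²` of the vectors proportional to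
`(c,d)` modulo `N`, measured with the hexagonal norm `h(x,y) = max(|x|,|y|,|x+y|)`.  A vector of
`L` is *good* if it is a shortest vector of `L`; or if all the shortest vectors of `L` are
divisible by `p` and, for one of them, `u`, it has cross product `± N` with `u` and takes its norm
at a different coordinate.  Good vectors have norm at most `pⁿ⁻¹`.  The main lemma says that when
one crosses the edge from a vector `v` of smallest norm among those of `L` not divisible by `p`,
the good vectors in the class on the other side come back to good vectors in the class of `v`.  So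
a maximal set of pairwise inequivalent good triangles, closed under taking parents, meets all the
classes of Farey triangles without elliptic point, and it gives the special polygon.
-/

open Matrix ModularGroup
open scoped MatrixGroups

namespace Pool.Agent.Results.MP_f9e819_nt.SmallFareySequences

/-- The combinatorial data of a special polygon over `[0,1]`: its cusps
`a 0 / e 0 < a 1 / e 1 < … < a m / e m` in `[0,1]`; for the `i`-th interval (`i < m`), between the
cusps number `i` and `i+1`, whether it is spanned by two odd edges (`odd i`) or by one even edge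
(`¬ odd i`); and the pairing `σ` of the even edges (`σ i = i` if the `i`-th edge is paired with
itself).  The polygon is the union of the Farey triangles above the path of even lines through the
cusps, and of one special triangle below each odd interval. -/
structure FareyData where
  /-- number of intervals -/
  m : ℕ
  /-- numerators of the cusps -/
  a : ℕ → ℤ
  /-- denominators of the cusps: the Farey sequence -/
  e : ℕ → ℤ
  /-- the odd intervals -/
  odd : ℕ → Prop
  /-- pairing of the even edges -/
  σ : ℕ → ℕ

namespace FareyData

/-- The cusps run from `0/1` to `1/1`, the denominators are positive, and consecutive cusps are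
Farey neighbours: `a (i+1) * e i - a i * e (i+1) = 1` (so they are in lowest terms and
increasing). -/
def IsPath (F : FareyData) : Prop :=
  F.a 0 = 0 ∧ F.e 0 = 1 ∧ F.a F.m = 1 ∧ F.e F.m = 1 ∧ (∀ i ≤ F.m, 0 < F.e i) ∧
    ∀ i < F.m, F.a (i + 1) * F.e i - F.a i * F.e (i + 1) = 1

/-- `σ` is an involution of the set of even edges. -/
def IsPairing (F : FareyData) : Prop :=
  ∀ i < F.m, ¬ F.odd i → F.σ i < F.m ∧ ¬ F.odd (F.σ i) ∧ F.σ (F.σ i) = i

/-- The primitive integer vector of the `i`-th cusp. -/
def cusp (F : FareyData) (i : ℕ) : Fin 2 → ℤ := ![F.a i, F.e i]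

/-- `h ∈ SL₂(ℤ)` represents the side pairing attached to the `i`-th interval.
* If the interval is odd, `h` is the rotation of order three sending the cusp `i` to the cusp
  `i+1` and the cusp `i+1` to their mediant; it fixes the common vertex of the two odd edges.
* If the interval is even, `h` carries the `i`-th edge onto the `σ i`-th edge, reversing the
  direction: it sends the cusp `i` to the cusp `σ i + 1` and the cusp `i+1` to the cusp `σ i`
  (for `σ i = i` it is the half-turn around the point of order two of the edge). -/
def SidePairing (F : FareyData) (i : ℕ) (h : SL(2, ℤ)) : Prop :=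
  (F.odd i ∧ h.1 *ᵥ F.cusp i = F.cusp (i + 1) ∧
    h.1 *ᵥ F.cusp (i + 1) = -(F.cusp i + F.cusp (i + 1))) ∨
  (¬ F.odd i ∧ h.1 *ᵥ F.cusp i = F.cusp (F.σ i + 1) ∧
    h.1 *ᵥ F.cusp (i + 1) = -(F.cusp (F.σ i)))

/-- The data describe a special polygon of `Γ ≤ SL₂(ℤ)`: the side pairings, the pairing
`T : z ↦ z+1` of the two vertical sides, and `-1` (which is trivial in `PSL₂(ℤ)`) generate `Γ`. -/
def IsSpecialPolygon (F : FareyData) (Γ : Subgroup SL(2, ℤ)) : Prop :=
  F.IsPath ∧ F.IsPairing ∧
    Subgroup.closure ({T, -1} ∪ {h | ∃ i < F.m, F.SidePairing i h}) = Γ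

end FareyData

/-- **Theorem.** Let `p` be an odd prime and `n ≥ 3`.  Then `Γ₀(pⁿ)` has a special polygon whose
Farey sequence `e 0, …, e m` satisfies `e i ≤ pⁿ⁻¹` for all `i`. -/
theorem result (p n : ℕ) (hp : p.Prime) (hp2 : p ≠ 2) (hn : 3 ≤ n) :
    ∃ F : FareyData, F.IsSpecialPolygon (CongruenceSubgroup.Gamma0 (p ^ n)) ∧
      ∀ i ≤ F.m, F.e i ≤ (p : ℤ) ^ (n - 1) := by
  obtain ⟨F, hF, hb⟩ := R319F.small_farey p n hp hp2 hn
  exact ⟨⟨F.m, F.a, F.e, F.odd, F.σ⟩, hF, hb⟩

end Pool.Agent.Results.MP_f9e819_nt.SmallFareySequences
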